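import Pool.Agent.Results.MP_63e8ca_gt.HFCwNotDuallyDiscrete
import Pool.Agent.Helper292.ForceCH

/-!
# Consistently, some HFC_w space is not dually discrete

(A) Some forcing notion forces, below every condition and over any ground model, that `ω₁` is
preserved and that the continuum hypothesis holds (a theorem about the explicit forcing relation
of `Pool/Agent/Helper292/ForceCH.lean`).

(B) The continuum hypothesis implies that some `HFC_w` subspace of `2^ω₁` is not dually discrete.
-/

set_option autoImplicit false

namespace Pool.Agent.Results.MP_63e8ca_gt.ConsistentlyNoH43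

open Cardinal Q209.DSp
open Pool.Agent.Helper292.ForceCH (OmegaOnePreserved CHHolds)

/-- **Main theorem.** (A) Some forcing notion forces that `ω₁` is preserved and that the continuum
hypothesis holds. (B) Under the continuum hypothesis there is an `HFC_w` subspace `X` of `2^ω₁`
which is not dually discrete; moreover `X` is hereditarily Lindelöf and hereditarily separable, and
some neighbourhood assignment on `X` has no kernel which is a finite union of discrete sets. -/
theorem result :
    (∃ (P : Type) (_ : Preorder P), Nonempty P ∧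
      ∀ p : P, p ∈ OmegaOnePreserved P ∧ p ∈ CHHolds P) ∧
    (continuum.{0} = aleph 1 → ∃ X : Set ((aleph 1).ord.ToType → Bool),
      HFCw X ∧ ¬ DuallyDiscrete X ∧ HereditarilyLindelofSpace X ∧
      (∀ t : Set X, ∃ c ⊆ t, c.Countable ∧ t ⊆ closure c) ∧
      ∃ U : X → Set X, (∀ x, IsOpen (U x) ∧ x ∈ U x) ∧
        ∀ (m : ℕ) (D : Fin m → Set X), (∀ j, DiscreteTopology (D j)) →
          (⋃ j, ⋃ x ∈ D j, U x) ≠ Set.univ) := by
  refine ⟨?_, Pool.Agent.Results.MP_63e8ca_gt.HFCwNotDuallyDiscrete.result⟩
  obtain ⟨P, hP, hne, h⟩ := Pool.Agent.Helper292.ForceCH.exists_forcing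
  exact ⟨P, hP, hne, fun p => ⟨(h p).1, (h p).2.2⟩⟩

end Pool.Agent.Results.MP_63e8ca_gt.ConsistentlyNoH43
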